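import Pool.Agent.H86.CMLib.W352.ChAbs.Main
import Pool.Agent.H86.CMLib.W401.Cheb.Main
import Pool.Agent.H86.CMLib.W528.Ord.Null

/-! A closed conjugation invariant subset of Haar measure zero of the absolute Galois group of a number
field contains the Frobenius elements of a set of primes of density zero only. -/

set_option autoImplicit false
set_option linter.all false

namespace Pool.Agent.W528.Ord

open MeasureTheory Topology Filter NumberField IsDedekindDomain
open Pool.Agent.W401.Cheb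
open scoped Pointwise

theorem chebK : ChebK :=
  Pool.Agent.W352.ChAbs.main Pool.Agent.W401.Cheb.chebotarev W54.ChTor.main

section profinite

variable {G : Type*} [Group G] [TopologicalSpace G] [IsTopologicalGroup G] [CompactSpace G]
  [T2Space G] [MeasurableSpace G] [BorelSpace G]

theorem coset_measure (μ : Measure G) [IsProbabilityMeasure μ] [μ.IsMulLeftInvariant]
    (U : Subgroup G) (hU : IsOpen (U : Set G)) (g : G) :
    μ {x | (QuotientGroup.mk x : G ⧸ U) = QuotientGroup.mk g} = μ U := by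
  have e : {x | (QuotientGroup.mk x : G ⧸ U) = QuotientGroup.mk g} = (fun x => g⁻¹ * x) ⁻¹' (U : Set G) := by
    ext x
    simp only [Set.mem_setOf_eq, Set.mem_preimage, SetLike.mem_coe]
    rw [eq_comm, QuotientGroup.eq]
  rw [e, measure_preimage_mul]

theorem measure_union (μ : Measure G) [IsProbabilityMeasure μ] [μ.IsMulLeftInvariant]
    (U : Subgroup G) (hU : IsOpen (U : Set G)) [Finite (G ⧸ U)] (S : Set (G ⧸ U)) :
    μ {x | (QuotientGroup.mk x : G ⧸ U) ∈ S} = S.ncard * μ U := by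
  classical
  have hfin : S.Finite := Set.toFinite S
  have e : {x | (QuotientGroup.mk x : G ⧸ U) ∈ S} =
      ⋃ q ∈ hfin.toFinset, {x | (QuotientGroup.mk x : G ⧸ U) = q} := by
    ext x
    simp
  rw [e, measure_biUnion_finset]
  · have h1 : ∀ q ∈ hfin.toFinset, μ {x | (QuotientGroup.mk x : G ⧸ U) = q} = μ U := by
      intro q _
      obtain ⟨g, rfl⟩ := QuotientGroup.mk_surjective q
      exact coset_measure μ U hU g
    rw [Finset.sum_congr rfl h1, Finset.sum_const, Set.ncard_eq_toFinset_card S hfin, nsmul_eq_mul]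
  · intro q _ q' _ hqq
    rw [Function.onFun, Set.disjoint_left]
    intro x hx hx'
    exact hqq (hx.symm.trans hx')
  · intro q _
    obtain ⟨g, rfl⟩ := QuotientGroup.mk_surjective q
    have e : {x | (QuotientGroup.mk x : G ⧸ U) = QuotientGroup.mk g} =
        (fun x => g⁻¹ * x) ⁻¹' (U : Set G) := by
      ext x
      simp only [Set.mem_setOf_eq, Set.mem_preimage, SetLike.mem_coe]
      rw [eq_comm, QuotientGroup.eq]
    rw [e]
    exact (hU.preimage (continuous_mul_left g⁻¹)).measurableSet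

theorem measure_U (μ : Measure G) [IsProbabilityMeasure μ] [μ.IsMulLeftInvariant]
    (U : Subgroup G) (hU : IsOpen (U : Set G)) [Finite (G ⧸ U)] :
    (Nat.card (G ⧸ U) : ENNReal) * μ U = 1 := by
  have h := measure_union μ U hU Set.univ
  simp only [Set.mem_univ, Set.setOf_true, measure_univ, Set.ncard_univ] at h
  exact h.symm

theorem exists_small (hprof : TotallyDisconnectedSpace G) (μ : Measure G) [IsProbabilityMeasure μ]
    [μ.IsMulLeftInvariant] [μ.Regular] (Z : Set G) (hZ : IsClosed Z) (h0 : μ Z = 0) (ε : ℝ) (hε : 0 < ε) :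
    ∃ U : OpenNormalSubgroup G, Finite (G ⧸ U.toSubgroup) ∧
      (((QuotientGroup.mk : G → G ⧸ U.toSubgroup) '' Z).ncard : ℝ) / (Nat.card (G ⧸ U.toSubgroup) : ℝ) < ε := by
  obtain ⟨O, hZO, hO, hOμ⟩ := Z.exists_isOpen_lt_of_lt (μ := μ) (ENNReal.ofReal ε)
    (by rw [h0]; exact ENNReal.ofReal_pos.mpr hε)
  obtain ⟨V, hV, hZV⟩ := compact_open_separated_mul_right hZ.isCompact hO hZO
  obtain ⟨W, hWV, hW, hW1⟩ := mem_nhds_iff.mp hV
  obtain ⟨U, hU⟩ := ProfiniteGrp.exist_openNormalSubgroup_sub_open_nhds_of_one hW hW1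
  have hUo : IsOpen (U.toSubgroup : Set G) := U.isOpen'
  haveI hfin : Finite (G ⧸ U.toSubgroup) := Subgroup.quotient_finite_of_isOpen _ hUo
  refine ⟨U, hfin, ?_⟩
  have h1 := measure_union μ U.toSubgroup hUo ((QuotientGroup.mk : G → G ⧸ U.toSubgroup) '' Z)
  have h2 := measure_U μ U.toSubgroup hUo
  have h3 : μ {x | (QuotientGroup.mk x : G ⧸ U.toSubgroup) ∈
      ((QuotientGroup.mk : G → G ⧸ U.toSubgroup) '' Z)} < ENNReal.ofReal ε := by
    refine lt_of_le_of_lt (measure_mono ?_) hOμ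
    rintro x ⟨z, hz, hzx⟩
    apply hZV
    rw [QuotientGroup.eq] at hzx
    refine Set.mem_mul.mpr ⟨z, hz, z⁻¹ * x, hWV (hU hzx), by group⟩
  rw [h1] at h3
  have hc : (0 : ℝ) < (Nat.card (G ⧸ U.toSubgroup) : ℝ) := by exact_mod_cast Nat.card_pos
  have hUt : μ (U.toSubgroup : Set G) ≠ ⊤ := measure_ne_top μ _
  have h4 : (Nat.card (G ⧸ U.toSubgroup) : ℝ) * (μ (U.toSubgroup : Set G)).toReal = 1 := by
    have := congrArg ENNReal.toReal h2
    rw [ENNReal.toReal_mul, ENNReal.toReal_one, ENNReal.toReal_natCast] at this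
    exact this
  have h5 : ((((QuotientGroup.mk : G → G ⧸ U.toSubgroup) '' Z).ncard : ℝ)) *
      (μ (U.toSubgroup : Set G)).toReal < ε := by
    have h6 := (ENNReal.toReal_lt_toReal (ENNReal.mul_ne_top (by simp) hUt) ENNReal.ofReal_ne_top).mpr h3
    rw [ENNReal.toReal_mul, ENNReal.toReal_natCast, ENNReal.toReal_ofReal hε.le] at h6
    exact h6
  have h7 : (μ (U.toSubgroup : Set G)).toReal = 1 / (Nat.card (G ⧸ U.toSubgroup) : ℝ) := by
    rw [eq_div_iff hc.ne', mul_comm]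
    exact h4
  rw [h7] at h5
  rwa [mul_one_div] at h5

end profinite

section field

variable {K : Type} [Field K] [NumberField K]

theorem dens_mono {P Q : HeightOneSpectrum (𝓞 K) → Prop} (h : ∀ v, P v → Q v) (N : ℕ) :
    dens P N ≤ dens Q N := by
  unfold dens
  apply div_le_div_of_nonneg_right _ (Nat.cast_nonneg _)
  have hf : {v : HeightOneSpectrum (𝓞 K) | Ideal.absNorm v.asIdeal ≤ N ∧ Q v}.Finite :=
    (Pool.Agent.W352.ChAbs.finite_le (K := K) N).subset (fun v hv => hv.1)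
  have hsub : {v : HeightOneSpectrum (𝓞 K) | Ideal.absNorm v.asIdeal ≤ N ∧ P v} ⊆
      {v : HeightOneSpectrum (𝓞 K) | Ideal.absNorm v.asIdeal ≤ N ∧ Q v} :=
    fun v hv => ⟨hv.1, h v hv.2⟩
  have h1 := Set.ncard_le_ncard hsub hf
  exact_mod_cast h1

theorem dens_nonneg (P : HeightOneSpectrum (𝓞 K) → Prop) (N : ℕ) : 0 ≤ dens P N := by
  unfold dens
  positivity

theorem dens_or (P Q : HeightOneSpectrum (𝓞 K) → Prop) (N : ℕ) :
    dens (fun v => P v ∨ Q v) N ≤ dens P N + dens Q N := by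
  unfold dens
  rw [← add_div]
  apply div_le_div_of_nonneg_right _ (Nat.cast_nonneg _)
  have h := Set.ncard_union_le {v : HeightOneSpectrum (𝓞 K) | Ideal.absNorm v.asIdeal ≤ N ∧ P v}
    {v : HeightOneSpectrum (𝓞 K) | Ideal.absNorm v.asIdeal ≤ N ∧ Q v}
  have e : {v : HeightOneSpectrum (𝓞 K) | Ideal.absNorm v.asIdeal ≤ N ∧ P v} ∪
    {v : HeightOneSpectrum (𝓞 K) | Ideal.absNorm v.asIdeal ≤ N ∧ Q v} =
    {v : HeightOneSpectrum (𝓞 K) | Ideal.absNorm v.asIdeal ≤ N ∧ (P v ∨ Q v)} := by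
    ext v
    simp only [Set.mem_union, Set.mem_setOf_eq]
    tauto
  rw [e] at h
  exact_mod_cast h

/-- **density zero** -/
theorem dens_null [MeasurableSpace (GK K)] [BorelSpace (GK K)] (μ : Measure (GK K))
    [IsProbabilityMeasure μ] [μ.IsMulLeftInvariant] [μ.Regular] (Z : Set (GK K)) (hZ : IsClosed Z)
    (hconj : ∀ σ ∈ Z, ∀ τ : GK K, τ * σ * τ⁻¹ ∈ Z) (h0 : μ Z = 0) :
    Tendsto (dens fun v : HeightOneSpectrum (𝓞 K) => ∃ σ ∈ Z, IsFrob v σ) atTop (𝓝 0) := by
  rw [Metric.tendsto_atTop]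
  intro ε hε
  obtain ⟨U, hfin, hU⟩ := exists_small inferInstance μ Z hZ h0 ε hε
  have hUo : IsOpen (U.toSubgroup : Set (GK K)) := U.isOpen'
  haveI : U.toSubgroup.Normal := U.isNormal'
  set C : Set (GK K) := {x | (QuotientGroup.mk x : GK K ⧸ U.toSubgroup) ∈
    ((QuotientGroup.mk : GK K → GK K ⧸ U.toSubgroup) '' Z)} with hC
  have hCC : (QuotientGroup.mk : GK K → GK K ⧸ U.toSubgroup) '' C =
      (QuotientGroup.mk : GK K → GK K ⧸ U.toSubgroup) '' Z := by
    ext q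
    constructor
    · rintro ⟨x, hx, rfl⟩
      exact hx
    · rintro ⟨z, hz, rfl⟩
      exact ⟨z, ⟨z, hz, rfl⟩, rfl⟩
  have key := chebK K U.toSubgroup hUo C ?_ ?_
  · rw [hCC] at key
    have hev := key.eventually (gt_mem_nhds hU)
    rw [eventually_atTop] at hev
    obtain ⟨N0, hN0⟩ := hev
    refine ⟨N0, fun N hN => ?_⟩
    rw [Real.dist_eq, sub_zero, abs_of_nonneg (dens_nonneg _ _)]
    refine lt_of_le_of_lt (dens_mono ?_ N) (hN0 N hN)
    rintro v ⟨σ, hσ, hv⟩
    exact ⟨σ, ⟨σ, hσ, rfl⟩, hv⟩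
  · rintro σ ⟨z, hz, hzσ⟩ τ
    refine ⟨τ * z * τ⁻¹, hconj z hz τ, ?_⟩
    have e1 : ((τ * z * τ⁻¹ : GK K) : GK K ⧸ U.toSubgroup) = (τ : GK K ⧸ U.toSubgroup) * (z : GK K ⧸ U.toSubgroup) *
      ((τ : GK K ⧸ U.toSubgroup))⁻¹ := rfl
    have e2 : ((τ * σ * τ⁻¹ : GK K) : GK K ⧸ U.toSubgroup) = (τ : GK K ⧸ U.toSubgroup) * (σ : GK K ⧸ U.toSubgroup) *
      ((τ : GK K ⧸ U.toSubgroup))⁻¹ := rfl
    rw [e1, e2, hzσ]
  · rintro σ ⟨z, hz, hzσ⟩ u hu
    refine ⟨z, hz, ?_⟩
    rw [hzσ, QuotientGroup.eq]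
    simpa using hu

/-- primes of degree at least two have density zero -/
theorem dens_not_prime : Tendsto (dens fun v : HeightOneSpectrum (𝓞 K) =>
    ¬ (Ideal.absNorm v.asIdeal).Prime) atTop (𝓝 0) := by
  choose R hR1 hR2 using Pool.Agent.W352.ChAbs.decomp
    (fun v : HeightOneSpectrum (𝓞 K) => ¬ (Ideal.absNorm v.asIdeal).Prime)
  have h0 : Tendsto (fun N : ℕ => (Module.finrank ℚ K : ℝ) *
      ((Nat.sqrt N + 1 : ℝ) / (Nat.primeCounting N : ℝ))) atTop (𝓝 0) := by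
    simpa using Pool.Agent.W352.ChAbs.sqrt_div_pi.const_mul (Module.finrank ℚ K : ℝ)
  refine squeeze_zero (fun N => dens_nonneg _ _) (fun N => ?_) h0
  unfold dens
  rw [hR2 N, mul_div_assoc']
  apply div_le_div_of_nonneg_right _ (Nat.cast_nonneg _)
  have hz : ∑ p ∈ Pool.Agent.W401.Cheb.pr N, Nat.card {v : HeightOneSpectrum (𝓞 K) //
      Ideal.absNorm v.asIdeal = p ∧ ¬ (Ideal.absNorm v.asIdeal).Prime} = 0 := by
    apply Finset.sum_eq_zero
    intro p hp
    have hp' : p.Prime := by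
      rw [Pool.Agent.W401.Cheb.pr, Finset.mem_filter] at hp
      exact hp.2
    rw [Nat.card_eq_zero]
    left
    constructor
    rintro ⟨v, h1, h2⟩
    exact h2 (h1 ▸ hp')
  rw [hz, zero_add]
  exact_mod_cast hR1 N

end field

end Pool.Agent.W528.Ord
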